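import Pool.Agent.V5helper93.KA.Iso

/-!
# Automorphisms of K3 surfaces of Picard number two and spherical twists

Let `L` be an even lattice of signature `(1, 1)` without isotropic vectors (the Néron-Severi lattice
of a K3 surface `S` with `ρ(S) = 2` and infinite automorphism group), let `N = ℤ ⊕ L ⊕ ℤ` be the
extended Néron-Severi lattice with the Mukai pairing, and let `g` be an isometry of `L` of
determinant one which preserves the positive cone and acts by a sign `ε` on the discriminant group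
of `L` (as does every automorphism of `S` when `Aut(S) ≅ ℤ`: `ε = 1` if it is symplectic and
`ε = -1` if it is anti-symplectic).  We prove that the isometry `(r, c, s) ↦ ε (r, g c, s)` of `N` is
a product of reflections in vectors of square `-2` (spherical twists) and of maps `exp(ℓ)` (tensor
products with line bundles).
-/

set_option autoImplicit false

namespace Pool.Agent.Results.MP_5f8c3f_ag.TwistGroup

variable {L : Type*} [AddCommGroup L]

/-- the Mukai pairing on `ℤ ⊕ L ⊕ ℤ` -/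
def mukai (b : LinearMap.BilinForm ℤ L) (v w : ℤ × L × ℤ) : ℤ :=
  b v.2.1 w.2.1 - v.1 * w.2.2 - v.2.2 * w.1

/-- the map `w ↦ w + (w, δ) δ`, the reflection in `δ` when `(δ, δ) = -2` -/
def refl (b : LinearMap.BilinForm ℤ L) (δ w : ℤ × L × ℤ) : ℤ × L × ℤ :=
  w + mukai b w δ • δ

/-- the product with `exp(ℓ) = (1, ℓ, (ℓ, ℓ) / 2)` -/
def expo (b : LinearMap.BilinForm ℤ L) (l : L) (w : ℤ × L × ℤ) : ℤ × L × ℤ :=
  (w.1, w.2.1 + w.1 • l, w.2.2 + b w.2.1 l + w.1 * (b l l / 2))

/-- the compositions of reflections in vectors of square `-2` and of products with exponentials -/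
inductive Gen (b : LinearMap.BilinForm ℤ L) : (ℤ × L × ℤ → ℤ × L × ℤ) → Prop
  | id : Gen b id
  | refl (δ : ℤ × L × ℤ) (f : ℤ × L × ℤ → ℤ × L × ℤ) (h : mukai b δ δ = -2) (hf : Gen b f) :
      Gen b (refl b δ ∘ f)
  | expo (l : L) (f : ℤ × L × ℤ → ℤ × L × ℤ) (hf : Gen b f) : Gen b (expo b l ∘ f)

open Pool.Agent.V5helper93

lemma Gen.comp {b : LinearMap.BilinForm ℤ L} {f g : ℤ × L × ℤ → ℤ × L × ℤ} (hf : Gen b f)
    (hg : Gen b g) : Gen b (f ∘ g) := by
  induction hf with
  | id => exact hg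
  | refl δ f h _ ih => exact Gen.refl δ (f ∘ g) h ih
  | expo l f _ ih => exact Gen.expo l (f ∘ g) ih

/-- **Theorem.** -/
theorem result {L : Type*} [AddCommGroup L] [Module.Free ℤ L] (hrk : Module.finrank ℤ L = 2)
    (b : LinearMap.BilinForm ℤ L) (hsymm : ∀ x y, b x y = b y x) (heven : ∀ x, Even (b x x))
    (hneg : ∃ x, b x x < 0) (haniso : ∀ x, b x x = 0 → x = 0)
    (g : L ≃ₗ[ℤ] L) (hg : ∀ x y, b (g x) (g y) = b x y)
    (hdet : LinearMap.det (g : L →ₗ[ℤ] L) = 1)
    (hcone : ∃ x, 0 < b x x ∧ 0 < b x (g x))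
    (ε : ℤ) (hε : ε = 1 ∨ ε = -1)
    (hdisc : ∀ f : L →ₗ[ℤ] ℤ, ∃ y, ∀ x, f (g x) - ε * f x = b y x) :
    Gen b (fun w => (ε * w.1, ε • g w.2.1, ε * w.2.2)) := by
  classical
  haveI : Module.Finite ℤ L := Module.finite_of_finrank_pos (by rw [hrk]; norm_num)
  set e : Module.Basis (Fin 2) ℤ L := Module.finBasisOfFinrankEq ℤ L hrk with he
  obtain ⟨A, hA⟩ := heven (e 0)
  obtain ⟨C, hC⟩ := heven (e 1)
  set B : ℤ := b (e 0) (e 1) with hB
  have hA' : b (e 0) (e 0) = 2 * A := by rw [hA]; ring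
  have hC' : b (e 1) (e 1) = 2 * C := by rw [hC]; ring
  have hB' : b (e 1) (e 0) = B := by rw [hsymm]
  -- coordinates
  set φ : ℤ × ℤ → L := fun x => x.1 • e 0 + x.2 • e 1 with hφ
  have hφb : ∀ x y, b (φ x) (φ y) = KA.bl A B C x y := by
    intro x y
    simp only [hφ, map_add, map_smul, LinearMap.add_apply, LinearMap.smul_apply, smul_eq_mul,
      hA', hC', hB', ← hB, KA.bl]
    ring
  have hφr : ∀ x : L, φ (e.repr x 0, e.repr x 1) = x := by
    intro x
    conv_rhs => rw [← e.sum_repr x]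
    rw [Fin.sum_univ_two]
  have hφs : Function.Surjective φ := fun x => ⟨_, hφr x⟩
  have hφ0 : ∀ x, φ x = 0 → x = 0 := by
    intro x hx
    have h1 : e.repr (φ x) = 0 := by rw [hx, map_zero]
    have h2 := DFunLike.congr_fun h1 0
    have h3 := DFunLike.congr_fun h1 1
    simp [hφ, Finsupp.single_apply] at h2 h3
    exact Prod.ext h2 h3
  have hbl2 : ∀ x, KA.bl A B C x x = 2 * KA.q A B C x := by
    intro x
    simp only [KA.bl, KA.q]
    ring
  have hq0 : ∀ x, KA.q A B C x = 0 → x = 0 := by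
    intro x hx
    apply hφ0
    apply haniso
    rw [hφb, hbl2, hx, mul_zero]
  -- the discriminant
  have hd : ¬ IsSquare (B ^ 2 - 4 * A * C) := by
    rintro ⟨s, hs⟩
    have h1 : KA.q A B C (s - B, 2 * A) = 0 := by
      simp only [KA.q]
      linear_combination (-A) * hs
    have h2 := hq0 _ h1
    have h3 : A = 0 := by
      have := congrArg Prod.snd h2
      simp only [Prod.snd_zero] at this
      omega
    have h4 : KA.q A B C (1, 0) = 0 := by
      simp only [KA.q, h3]
      ring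
    have h5 := congrArg Prod.fst (hq0 _ h4)
    simp at h5
  obtain ⟨xp', hxp', hxg⟩ := hcone
  obtain ⟨xn', hxn'⟩ := hneg
  obtain ⟨xp, rfl⟩ := hφs xp'
  obtain ⟨xn, rfl⟩ := hφs xn'
  rw [hφb, hbl2] at hxp' hxn'
  have hd0 : 0 < B ^ 2 - 4 * A * C := by
    by_contra hcon
    push Not at hcon
    have h0 : B ^ 2 - 4 * A * C < 0 := by
      refine lt_of_le_of_ne hcon fun h => hd ?_
      rw [h]
      exact ⟨0, by ring⟩
    have h1 : ∀ x, 0 ≤ A * KA.q A B C x := by
      intro x
      have h2 : 4 * (A * KA.q A B C x) = (2 * A * x.1 + B * x.2) ^ 2 -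
          (B ^ 2 - 4 * A * C) * x.2 ^ 2 := by
        simp only [KA.q]
        ring
      nlinarith [sq_nonneg (2 * A * x.1 + B * x.2), sq_nonneg x.2,
        mul_nonneg (neg_nonneg.2 h0.le) (sq_nonneg x.2)]
    have h2 := h1 xp
    have h3 := h1 xn
    have h4 : 0 ≤ A := by
      by_contra h5
      push Not at h5
      nlinarith
    have h5 : A ≤ 0 := by
      by_contra h6
      push Not at h6
      nlinarith
    have h6 : A = 0 := le_antisymm h5 h4
    rw [h6] at h0
    nlinarith [sq_nonneg B]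
  -- the matrix of `g`
  obtain ⟨g11, hg11⟩ : ∃ n, n = e.repr (g (e 0)) 0 := ⟨_, rfl⟩
  obtain ⟨g21, hg21⟩ : ∃ n, n = e.repr (g (e 0)) 1 := ⟨_, rfl⟩
  obtain ⟨g12, hg12⟩ : ∃ n, n = e.repr (g (e 1)) 0 := ⟨_, rfl⟩
  obtain ⟨g22, hg22⟩ : ∃ n, n = e.repr (g (e 1)) 1 := ⟨_, rfl⟩
  have hge0 : g (e 0) = φ (g11, g21) := by rw [hg11, hg21, hφr]
  have hge1 : g (e 1) = φ (g12, g22) := by rw [hg12, hg22, hφr]
  have hgφ : ∀ x, g (φ x) = φ (g11 * x.1 + g12 * x.2, g21 * x.1 + g22 * x.2) := by
    intro x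
    simp only [hφ, map_add, map_smul]
    rw [hge0, hge1]
    simp only [hφ, smul_add, smul_smul, add_smul]
    rw [mul_comm x.1 g11, mul_comm x.1 g21, mul_comm x.2 g12, mul_comm x.2 g22]
    abel
  have hD : g11 * g22 - g12 * g21 = 1 := by
    rw [← hdet, ← LinearMap.det_toMatrix e, Matrix.det_fin_two]
    simp only [LinearMap.toMatrix_apply, LinearEquiv.coe_coe, ← hg11, ← hg12, ← hg21, ← hg22]
  have e0φ : e 0 = φ (1, 0) := by simp [hφ]
  have e1φ : e 1 = φ (0, 1) := by simp [hφ]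
  have E1 : A * g11 ^ 2 + B * g11 * g21 + C * g21 ^ 2 = A := by
    have h := hg (e 0) (e 0)
    rw [hge0, hφb, hA'] at h
    simp only [KA.bl] at h
    linarith
  have E2 : 2 * A * g11 * g12 + B * (g11 * g22 + g12 * g21) + 2 * C * g21 * g22 = B := by
    have h := hg (e 0) (e 1)
    rw [hge0, hge1, hφb, ← hB] at h
    simp only [KA.bl] at h
    linarith
  have E3 : A * g12 ^ 2 + B * g12 * g22 + C * g22 ^ 2 = C := by
    have h := hg (e 1) (e 1)
    rw [hge1, hφb, hC'] at h
    simp only [KA.bl] at h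
    linarith
  -- the discriminant group
  obtain ⟨y1, hy1⟩ := hdisc (e.coord 0)
  obtain ⟨y2, hy2⟩ := hdisc (e.coord 1)
  obtain ⟨⟨G11, G12⟩, rfl⟩ := hφs y1
  obtain ⟨⟨G21, G22⟩, rfl⟩ := hφs y2
  have k11 := hy1 (e 0)
  have k12 := hy1 (e 1)
  have k21 := hy2 (e 0)
  have k22 := hy2 (e 1)
  rw [Module.Basis.coord_apply, Module.Basis.coord_apply, ← hg11, e0φ, hφb, ← e0φ] at k11
  rw [Module.Basis.coord_apply, Module.Basis.coord_apply, ← hg12, e1φ, hφb, ← e1φ] at k12
  rw [Module.Basis.coord_apply, Module.Basis.coord_apply, ← hg21, e0φ, hφb, ← e0φ] at k21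
  rw [Module.Basis.coord_apply, Module.Basis.coord_apply, ← hg22, e1φ, hφb, ← e1φ] at k22
  simp [KA.bl] at k11 k12 k21 k22
  have ht : 0 < g11 + g22 := by
    rw [hgφ, hφb] at hxg
    have h2 : KA.bl A B C xp (g11 * xp.1 + g12 * xp.2, g21 * xp.1 + g22 * xp.2) =
        (g11 + g22) * KA.q A B C xp := by
      have F1 : A * (g22 - g11) = B * g21 := by
        have : 2 * (A * (g22 - g11) - B * g21) = 0 := by
          linear_combination (2 * A * g11 + B * g21) * hD - 2 * g22 * E1 + g21 * E2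
        linarith
      have F2 : A * g12 = -(C * g21) := by
        have : 2 * (A * g12 + C * g21) = 0 := by
          linear_combination (-(2 * A * g12 + B * g22 - B)) * hD +
            g22 * E2 - 2 * g21 * E3 - B * hD
        linarith
      have F3 : B * g12 = C * (g11 - g22) := by
        have : 2 * (B * g12 - C * (g11 - g22)) = 0 := by
          linear_combination (-(B * g12 + 2 * C * g22)) * hD - g12 * E2 + 2 * g11 * E3
        linarith
      simp only [KA.bl, KA.q]
      linear_combination (-xp.1 ^ 2) * F1 + 2 * xp.1 * xp.2 * F2 + xp.2 ^ 2 * F3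
    rw [h2] at hxg
    have h3 : 0 < KA.q A B C xp := by linarith
    exact (mul_pos_iff_of_pos_right h3).1 hxg
  have hmain := KA.coord hd0 hd hε E1 E2 E3 hD (G11 := G11) (G12 := G12) (G21 := G21)
    (G22 := G22) (by linarith) (by linarith) (by linarith) (by linarith) ht
  -- transport
  set Ψ : ℤ × (ℤ × ℤ) × ℤ → ℤ × L × ℤ := fun w => (w.1, φ w.2.1, w.2.2) with hΨ
  have hΨs : Function.Surjective Ψ := by
    rintro ⟨r, c, s⟩
    obtain ⟨x, rfl⟩ := hφs c
    exact ⟨(r, x, s), rfl⟩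
  have hmuk : ∀ v w, mukai b (Ψ v) (Ψ w) = KA.BL A B C v w := by
    intro v w
    simp only [mukai, hΨ, hφb, KA.BL]
  have hφadd : ∀ x y, φ (x + y) = φ x + φ y := by
    intro x y
    simp only [hφ, Prod.fst_add, Prod.snd_add, add_smul]
    abel
  have hφsmul : ∀ (n : ℤ) x, φ (n • x) = n • φ x := by
    intro n x
    simp only [hφ, Prod.smul_fst, Prod.smul_snd, smul_add, smul_smul, smul_eq_mul]
  have htrans : ∀ f ∈ KA.W A B C, ∃ F, Gen b F ∧ ∀ w, F (Ψ w) = Ψ (f w) := by
    intro f hf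
    unfold KA.W at hf
    induction hf using Submonoid.closure_induction with
    | mem f hf =>
      rcases hf with ⟨v, hv, rfl⟩ | ⟨l, rfl⟩
      · refine ⟨refl b (Ψ v), ?_, ?_⟩
        · have h1 := Gen.refl (b := b) (Ψ v) id (by
            rw [hmuk]
            simp only [KA.BL, hbl2]
            simp only [KA.Q] at hv
            linarith) Gen.id
          exact h1
        · intro w
          simp only [refl, hmuk, KA.rf]
          simp only [hΨ]
          ext1
          · simp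
          · ext1
            · simp only [Prod.snd_add, Prod.fst_add, Prod.smul_snd, Prod.smul_fst, hφadd, hφsmul]
            · simp
      · refine ⟨expo b (φ l), ?_, ?_⟩
        · exact Gen.expo (b := b) (φ l) id Gen.id
        · intro w
          simp only [expo, KA.ex, hΨ, hφb, hφadd, hφsmul]
          have h1 : KA.bl A B C l l / 2 = KA.q A B C l := by
            rw [hbl2]
            omega
          rw [h1]
    | one => exact ⟨id, Gen.id, fun w => rfl⟩
    | mul f1 f2 _ _ ih1 ih2 =>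
      obtain ⟨F1, hF1, h1⟩ := ih1
      obtain ⟨F2, hF2, h2⟩ := ih2
      refine ⟨F1 ∘ F2, hF1.comp hF2, fun w => ?_⟩
      rw [Function.comp_apply, h2, h1]
      rfl
  obtain ⟨F, hF, hFΨ⟩ := htrans _ hmain
  convert hF using 1
  funext w
  obtain ⟨w', rfl⟩ := hΨs w
  rw [hFΨ]
  simp only [hΨ, hgφ]
  ext1
  · rfl
  · ext1
    · simp only [hφ, smul_add, smul_smul]
    · rfl

end Pool.Agent.Results.MP_5f8c3f_ag.TwistGroup
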